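import Pool.Agent.H.MP_ca5fa5_an.B

open MeasureTheory Filter Topology Set Real
open scoped ContDiff RealInnerProductSpace

namespace Pool.Agent.H.MP_ca5fa5_an

noncomputable def et : ℝ → ℝ := deriv smoothTransition

theorem th_d (x : ℝ) : HasDerivAt smoothTransition (et x) x :=
  ((contDiff_infty_iff_deriv.1 (smoothTransition.contDiff (n := ⊤))).1 x).hasDerivAt

theorem et0 {y : ℝ} (h : y ∉ Icc (0 : ℝ) 1) : et y = 0 ∧ deriv et y = 0 := by
  obtain ⟨c, e⟩ : ∃ c, smoothTransition =ᶠ[𝓝 y] fun _ => c := by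
    rcases lt_or_ge y 0 with a | a
    · exact ⟨0, (gt_mem_nhds a : ∀ᶠ s in 𝓝 y, s < (0 : ℝ)).mono fun s hs => smoothTransition.zero_of_nonpos hs.le⟩
    · exact ⟨1, (lt_mem_nhds (not_le.1 fun b => h ⟨a, b⟩) : ∀ᶠ s in 𝓝 y, (1 : ℝ) < s).mono fun s hs => smoothTransition.one_of_one_le hs.le⟩
  have e1 : et =ᶠ[𝓝 y] fun _ => 0 := by simpa [et] using e.deriv
  exact ⟨e1.self_of_nhds, by simpa using e1.deriv_eq⟩

theorem et_t : Test et :=
  ⟨(contDiff_infty_iff_deriv.1 (smoothTransition.contDiff (n := ⊤))).2, .intro isCompact_Icc fun _ h => (et0 h).1⟩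

noncomputable def bt (r x : ℝ) : ℝ := smoothTransition (r + 1 - x) + smoothTransition (r + 1 + x) - 1

theorem bt_d (r : ℝ) : deriv (bt r) = fun x => -1 * et (r + 1 - x) + et (r + 1 + x) := funext fun x => by
  exact ((((th_d _).comp_const_sub (r + 1) x).add ((th_d _).comp_const_add (r + 1) x)).sub_const 1).deriv.trans (by simp)

theorem bt_dd (r : ℝ) : deriv (deriv (bt r)) = fun x => 1 * deriv et (r + 1 - x) + deriv et (r + 1 + x) := funext fun x => by
  rw [bt_d]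
  exact ((((et_t.diff _).hasDerivAt.comp_const_sub (r + 1) x).const_mul (-1)).add
    ((et_t.diff _).hasDerivAt.comp_const_add (r + 1) x)).deriv.trans (by simp)

theorem bt_1 {r x : ℝ} (h : |x| ≤ r) : bt r x = 1 := by
  have := abs_le.1 h
  rw [bt, smoothTransition.one_of_one_le (by linarith), smoothTransition.one_of_one_le (by linarith)]; ring

theorem bt_m {r : ℝ} (h : 0 ≤ r) (x : ℝ) : (0 ≤ bt r x ∧ bt r x ≤ 1) ∧ (r + 1 ≤ |x| → bt r x = 0) := by
  rcases le_total 0 x with a | a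
  · rw [bt, smoothTransition.one_of_one_le (x := r + 1 + x) (by linarith), add_sub_cancel_right, abs_of_nonneg a]
    exact ⟨⟨smoothTransition.nonneg _, smoothTransition.le_one _⟩, fun e => smoothTransition.zero_of_nonpos (by linarith)⟩
  · rw [bt, smoothTransition.one_of_one_le (x := r + 1 - x) (by linarith), add_sub_cancel_left, abs_of_nonpos a]
    exact ⟨⟨smoothTransition.nonneg _, smoothTransition.le_one _⟩, fun e => smoothTransition.zero_of_nonpos (by linarith)⟩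

theorem hcs {φ : ℝ → ℝ} {R : ℝ} (h : ∀ x, R ≤ |x| → φ x = 0) : HasCompactSupport φ :=
  .intro (isCompact_Icc (a := -R) (b := R)) fun x hx => h x (not_lt.1 fun e => hx ⟨(abs_lt.1 e).1.le, (abs_lt.1 e).2.le⟩)

theorem bt_t {r : ℝ} (h : 0 ≤ r) : Test (bt r) :=
  ⟨by unfold bt; have := smoothTransition.contDiff (n := ⊤); fun_prop, hcs fun x => (bt_m h x).2⟩

theorem bt_0 {r x : ℝ} (h : 0 ≤ r) (hx : |x| ∉ Icc r (r + 1)) : deriv (bt r) x = 0 ∧ deriv (deriv (bt r)) x = 0 := by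
  have a := et0 (y := r + 1 - x) fun ⟨p, q⟩ => hx (by rw [abs_of_nonneg (by linarith)]; constructor <;> linarith)
  have b := et0 (y := r + 1 + x) fun ⟨p, q⟩ => hx (by rw [abs_of_nonpos (by linarith)]; constructor <;> linarith)
  rw [bt_dd, bt_d]; simp [a, b]

theorem two {η : ℝ → ℝ} (h : CC η) (c σ : ℝ) (e : σ ^ 2 = 1) : ∫ x, (σ * η (c - x) + η (c + x)) ^ 2 ≤ 4 * ∫ x, η x ^ 2 := by
  have i1 := (h.sq.int.comp_sub_left c).const_mul 2
  have i2 := (h.sq.int.comp_add_left c).const_mul 2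
  have := integral_mono_of_nonneg (f := fun x => (σ * η (c - x) + η (c + x)) ^ 2) (.of_forall fun _ => sq_nonneg _) (i1.add i2)
    (.of_forall fun x => by
      have : (σ * η (c - x)) ^ 2 = η (c - x) ^ 2 := by rw [mul_pow, e, one_mul]
      simp only [Pi.add_apply]
      nlinarith [sq_nonneg (σ * η (c - x) - η (c + x))])
  rw [integral_add' i1 i2, integral_const_mul, integral_const_mul, integral_sub_left_eq_self (fun x => η x ^ 2),
    integral_add_left_eq_self (fun x => η x ^ 2)] at this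
  linarith

theorem orth {u : ℕ → ℝ → ℝ} {K : ℝ} (h1 : ∀ k, CC (u k)) (h2 : ∀ k x, |x| ∉ Icc (g k) (g k + 1) → u k x = 0)
    (h3 : ∀ k, ∫ x, u k x ^ 2 ≤ K) (m n : ℕ) : ∫ x, ((n : ℝ)⁻¹ * ∑ k ∈ Finset.range n, u (m + k) x) ^ 2 ≤ K / n := by
  have : ∀ x, ((n : ℝ)⁻¹ * ∑ k ∈ Finset.range n, u (m + k) x) ^ 2 = (n : ℝ)⁻¹ ^ 2 * ∑ k ∈ Finset.range n, u (m + k) x ^ 2 := fun x => by
    rw [mul_pow, sq (Finset.sum _ _), Finset.sum_mul_sum]
    congr 1
    refine Finset.sum_congr rfl fun i hi => (Finset.sum_eq_single i (fun j _ ne => ?_) fun e => absurd hi e).trans (sq _).symm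
    by_contra e
    obtain ⟨a, b⟩ := not_not.1 (mt (h2 _ x) (left_ne_zero_of_mul e))
    obtain ⟨c, d⟩ := not_not.1 (mt (h2 _ x) (right_ne_zero_of_mul e))
    rcases lt_or_gt_of_ne ne with l | l <;> linarith [g_sep (Nat.add_lt_add_left l m)]
  simp only [this]
  rw [integral_const_mul, integral_finsetSum _ fun k _ => (h1 _).sq.int]
  refine (mul_le_mul_of_nonneg_left (Finset.sum_le_card_nsmul _ _ K fun k _ => h3 _) (sq_nonneg _)).trans_eq ?_
  rcases eq_or_ne (n : ℝ) 0 with e | e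
  · simp [e]
  · simp; field_simp

theorem cut (R : ℝ) {ε : ℝ} (e0 : 0 < ε) : ∃ ψ, Test ψ ∧ (∀ x, 0 ≤ ψ x ∧ ψ x ≤ 1) ∧ (∀ x, |x| ≤ R → ψ x = 1) ∧
    (∀ x, a0 x * deriv ψ x = deriv ψ x) ∧ ∫ x, deriv ψ x ^ 2 ≤ ε ∧ ∫ x, deriv (deriv ψ) x ^ 2 ≤ ε := by
  obtain ⟨m, hm⟩ := exists_nat_ge R
  obtain ⟨n, ⟨n1, n2⟩, n3⟩ := ((((tendsto_const_div_atTop_nhds_zero_nat (4 * ∫ x, et x ^ 2)).eventually (ge_mem_nhds e0)).and
    ((tendsto_const_div_atTop_nhds_zero_nat (4 * ∫ x, deriv et x ^ 2)).eventually (ge_mem_nhds e0))).and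
      (eventually_gt_atTop 0)).exists
  have t := fun k => bt_t (g_pos k).le
  have n0 : (0 : ℝ) < n := by exact_mod_cast n3
  have d : ∀ u : ℕ → ℝ → ℝ, (∀ k, Differentiable ℝ (u k)) → deriv (fun x => (n : ℝ)⁻¹ * ∑ k ∈ Finset.range n, u (m + k) x) =
      fun x => (n : ℝ)⁻¹ * ∑ k ∈ Finset.range n, deriv (u (m + k)) x := fun u h => funext fun x =>
    ((HasDerivAt.fun_sum fun k _ => (h (m + k) x).hasDerivAt).const_mul _).deriv
  have d1 := d (fun k => bt (g k)) fun k => (t k).diff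
  have d2 := d (fun k => deriv (bt (g k))) fun k => (t k).d.diff
  refine ⟨fun x => (n : ℝ)⁻¹ * ∑ k ∈ Finset.range n, bt (g (m + k)) x, ⟨contDiff_const.mul (.sum fun k _ => (t _).1),
    hcs (R := g (m + n) + 1) fun x hx => ?_⟩, fun x => ⟨?_, ?_⟩, fun x hx => ?_, fun x => ?_, ?_, ?_⟩
  · rw [Finset.sum_eq_zero fun k hk => (bt_m (g_pos _).le x).2
      (by linarith [g_mono (Nat.add_le_add_left (Finset.mem_range.1 hk).le m)]), mul_zero]
  · exact mul_nonneg (by positivity) (Finset.sum_nonneg fun k _ => (bt_m (g_pos _).le x).1.1)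
  · rw [inv_mul_le_iff₀ n0]
    simpa using Finset.sum_le_card_nsmul (Finset.range n) _ 1 fun k _ => (bt_m (g_pos (m + k)).le x).1.2
  · beta_reduce
    rw [Finset.sum_congr rfl fun k _ => bt_1 (r := g (m + k)) (x := x) (by
      have := g_ge (m + k); push_cast at this; linarith [Nat.cast_nonneg (α := ℝ) k])]
    simp [n0.ne']
  · rw [d1, a0]
    split_ifs with e
    · rw [one_mul]
    · simp [fun k => (bt_0 (g_pos k).le fun h => e ⟨k, h⟩).1]
  · rw [d1]
    exact (orth (u := fun k => deriv (bt (g k))) (fun k => (t k).d.cc) (fun k x h => (bt_0 (g_pos k).le h).1)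
      (fun k => by rw [bt_d]; exact two et_t.cc _ _ (by norm_num)) m n).trans n1
  · rw [d1, d2]
    exact (orth (u := fun k => deriv (deriv (bt (g k)))) (fun k => (t k).d.d.cc) (fun k x h => (bt_0 (g_pos k).le h).2)
      (fun k => by rw [bt_dd]; exact two et_t.d.cc _ _ (by norm_num)) m n).trans n2

theorem bdI {z : ℝ → ℝ} (h : CC z) {B S : ℝ} (S0 : 0 ≤ S) (h1 : ∀ x, |x| ≤ S → |z x| ≤ B) (h2 : ∀ x, S < |x| → z x = 0) :
    ‖tl z‖ ^ 2 ≤ B ^ 2 * (2 * S) := by
  rw [nsq h, ← setIntegral_eq_integral_of_forall_compl_eq_zero (s := Icc (-S) S) fun x hx => by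
    rw [h2 x (not_le.1 fun e => hx (abs_le.1 e))]; simp]
  refine (setIntegral_mono_on h.sq.int.integrableOn (integrableOn_const (C := B ^ 2) (by simp)) measurableSet_Icc fun x hx =>
    sq_le_sq' (abs_le.1 (h1 x (abs_le.2 hx))).1 (abs_le.1 (h1 x (abs_le.2 hx))).2).trans_eq ?_
  simp [S0]; ring

noncomputable def ro (x : ℝ) : ℝ := 1 / (1 + x ^ 2) ^ 2

theorem ro_s : ContDiff ℝ ∞ ro := contDiff_const.div (by fun_prop) fun x => by positivity

theorem big : ∃ K > 0, ∀ S, 2 ≤ S → ∃ G z, Op (fun _ => 1) ro G z ∧ (∀ x, 0 ≤ G x) ∧ (∀ x, |x| ≤ 2 → 1 ≤ G x) ∧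
    ‖tl z‖ ≤ K / S ∧ ‖tl G‖ ≤ 6 * S ^ 3 := by
  have t := bt_t one_pos.le
  obtain ⟨K1, k1⟩ := t.d.cc.1.bounded_above_of_compact_support t.d.2
  obtain ⟨K2, k2⟩ := t.d.d.cc.1.bounded_above_of_compact_support t.d.d.2
  have K10 := (norm_nonneg _).trans (k1 0)
  have K20 := (norm_nonneg _).trans (k2 0)
  refine ⟨2 * (2 * K1 + 3 * K2) + 1, by positivity, fun S hS => ?_⟩
  obtain ⟨R, hR⟩ : ∃ R, R = S ^ 2 := ⟨_, rfl⟩
  have R2 : 2 ≤ R := by nlinarith
  have p : ∀ x : ℝ, 0 < 1 + x ^ 2 := fun x => by positivity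
  have s0 : ∀ x : ℝ, 0 < √(1 + x ^ 2) := fun x => sqrt_pos.2 (p x)
  have s1 : ∀ x : ℝ, HasDerivAt (fun x => √(1 + x ^ 2)) (x / √(1 + x ^ 2)) x := fun x => by
    refine (((hasDerivAt_pow 2 x).const_add 1).sqrt (p x).ne').congr_deriv ?_
    simp; field_simp
  have s2 : ∀ x : ℝ, |x| ≤ √(1 + x ^ 2) ∧ 1 ≤ √(1 + x ^ 2) ∧ √(1 + x ^ 2) ≤ 1 + |x| := fun x =>
    ⟨abs_le_sqrt (by linarith), by simpa using sq_nonneg x,
      sqrt_le_iff.2 ⟨by positivity, by nlinarith [abs_nonneg x, sq_abs x]⟩⟩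
  have c1 := fun x => (t.diff (x / R)).hasDerivAt.comp x ((hasDerivAt_id x).div_const R)
  have c2 := fun x => (t.d.diff (x / R)).hasDerivAt.comp x ((hasDerivAt_id x).div_const R)
  have ab : ∀ x, 2 * R ≤ |x| → 1 + 1 ≤ |x / R| := fun x h => by
    rw [abs_div, abs_of_pos (by linarith : 0 < R), le_div_iff₀ (by linarith)]; linarith
  have tG : Test fun x => √(1 + x ^ 2) * bt 1 (x / R) := ⟨(ContDiff.sqrt (by fun_prop) fun x => (p x).ne').mul
    (t.1.comp (contDiff_id.div_const R)), hcs fun x h => by rw [(bt_m one_pos.le _).2 (ab x h), mul_zero]⟩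
  have o := ibp (a := fun _ => 1) ro_s.continuous tG fun x => one_mul _
  have d1 : deriv (fun x => √(1 + x ^ 2) * bt 1 (x / R)) = fun x => x / √(1 + x ^ 2) * bt 1 (x / R) +
      √(1 + x ^ 2) * (deriv (bt 1) (x / R) * (1 / R)) := funext fun x => ((s1 x).mul (c1 x)).deriv
  have d2 : ∀ x, ro x * (√(1 + x ^ 2) * bt 1 (x / R)) - deriv (deriv fun x => √(1 + x ^ 2) * bt 1 (x / R)) x =
      -(2 * (x / √(1 + x ^ 2)) * deriv (bt 1) (x / R) + √(1 + x ^ 2) / R * deriv (deriv (bt 1)) (x / R)) / R := fun x => by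
    have e : deriv (fun x => x / √(1 + x ^ 2) * bt 1 (x / R) + √(1 + x ^ 2) * (deriv (bt 1) (x / R) * (1 / R))) x = _ :=
      ((((hasDerivAt_id x).fun_div (s1 x) (s0 x).ne').mul (c1 x)).add ((s1 x).mul ((c2 x).mul_const (1 / R)))).deriv
    rw [d1, e, ro]
    have q := sq_sqrt (p x).le
    have := s0 x
    simp only [id, Function.comp]
    generalize √(1 + x ^ 2) = s at *
    rw [← q]
    field_simp
    linear_combination (-R ^ 2 * bt 1 (x / R)) * q
  refine ⟨_, _, o, fun x => mul_nonneg (s0 x).le (bt_m one_pos.le _).1.1, fun x hx => ?_, ?_, ?_⟩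
  · rw [bt_1 (by rw [abs_div, abs_of_pos (by linarith : 0 < R), div_le_one (by linarith)]; linarith), mul_one]
    exact (s2 x).2.1
  · refine le_of_sq_le_sq (le_trans (bdI o.2.1 (B := (2 * K1 + 3 * K2) / R) (S := 2 * R) (by linarith) (fun x hx => ?_)
      fun x hx => ?_) ?_) (by positivity)
    · rw [d2, abs_div, abs_neg, abs_of_pos (by linarith : 0 < R)]
      refine div_le_div_of_nonneg_right ((abs_add_le _ _).trans (add_le_add ?_ ?_)) (by linarith)
      · rw [abs_mul, abs_mul, abs_two, abs_div, abs_of_pos (s0 x)]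
        have := mul_le_mul ((div_le_one (s0 x)).2 (s2 x).1) (k1 (x / R)) (norm_nonneg _) one_pos.le
        rw [norm_eq_abs] at this
        linarith
      · rw [abs_mul, abs_of_pos (div_pos (s0 x) (by linarith))]
        exact mul_le_mul ((div_le_iff₀ (by linarith)).2 (by linarith [(s2 x).2.2])) (k2 _) (abs_nonneg _) (by norm_num)
    · have := bt_0 (x := x / R) one_pos.le fun h => by
        have := h.2
        rw [abs_div, abs_of_pos (by linarith : 0 < R), div_le_iff₀ (by linarith)] at this; linarith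
      rw [d2, this.1, this.2]; simp
    · rw [hR, div_pow, div_pow, div_mul_eq_mul_div, div_le_div_iff₀ (by positivity) (by positivity)]
      have : 0 ≤ (4 * (2 * K1 + 3 * K2) + 1) * S ^ 4 := by positivity
      nlinarith
  · refine le_of_sq_le_sq (le_trans (bdI tG.cc (B := 3 * R) (S := 2 * R) (by linarith) (fun x hx => ?_)
      fun x hx => by rw [(bt_m one_pos.le _).2 (ab x hx.le), mul_zero]) (le_of_eq (by rw [hR]; ring))) (by positivity)
    rw [abs_of_nonneg (mul_nonneg (s0 x).le (bt_m one_pos.le _).1.1)]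
    exact (mul_le_of_le_one_right (s0 x).le (bt_m one_pos.le _).1.2).trans (by linarith [(s2 x).2.2])

end Pool.Agent.H.MP_ca5fa5_an
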