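import Mathlib

open MeasureTheory Filter Topology Set
open scoped ContDiff RealInnerProductSpace

namespace Pool.Agent.H.MP_ca5fa5_an

noncomputable abbrev L2 := Lp ℝ 2 (volume : Measure ℝ)

def Test (φ : ℝ → ℝ) : Prop := ContDiff ℝ ∞ φ ∧ HasCompactSupport φ

noncomputable def form (a V φ ψ : ℝ → ℝ) : ℝ := ∫ x, (a x * deriv φ x * deriv ψ x + V x * φ x * ψ x)

def Adm (a V : ℝ → ℝ) : Prop :=
  Measurable a ∧ Measurable V ∧ (∀ R, ∃ c C : ℝ, 0 < c ∧ ∀ x, |x| ≤ R → c ≤ a x ∧ a x ≤ C ∧ |V x| ≤ C) ∧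
    ∀ φ, Test φ → 0 ≤ form a V φ φ

def Graph (a V : ℝ → ℝ) (u w : L2) : Prop :=
  ∃ φ : ℕ → ℝ → ℝ, (∀ n, Test (φ n)) ∧ Tendsto (fun n => ∫ x, (φ n x - u x) ^ 2) atTop (𝓝 0) ∧
    Tendsto (fun p : ℕ × ℕ => form a V (φ p.1 - φ p.2) (φ p.1 - φ p.2)) atTop (𝓝 0) ∧
    ∀ ψ, Test ψ → Tendsto (fun n => form a V (φ n) ψ) atTop (𝓝 (∫ x, w x * ψ x))

def Heat (a V : ℝ → ℝ) (T : ℝ → L2 →L[ℝ] L2) (k : ℝ → ℝ → ℝ → ℝ) : Prop :=
  T 0 = 1 ∧ (∀ s t, 0 ≤ s → 0 ≤ t → T (s + t) = T s * T t) ∧ (∀ u, ContinuousOn (fun t => T t u) (Ici 0)) ∧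
    (∀ t, 0 ≤ t → IsSelfAdjoint (T t)) ∧ (∀ u w, HasDerivWithinAt (fun t => T t u) (-w) (Ici 0) 0 ↔ Graph a V u w) ∧
    ∀ t, 0 < t → Continuous (Function.uncurry (k t)) ∧ (∀ x y, 0 < k t x y) ∧
      ∀ u : L2, T t u =ᵐ[volume] fun x => ∫ y, k t x y * u y

def CC (η : ℝ → ℝ) : Prop := Continuous η ∧ HasCompactSupport η

variable {a V φ ψ η f z : ℝ → ℝ} {u w : L2}

theorem Test.cc (h : Test φ) : CC φ := ⟨h.1.continuous, h.2⟩
theorem Test.d (h : Test φ) : Test (deriv φ) := ⟨(contDiff_infty_iff_deriv.1 h.1).2, h.2.deriv⟩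
theorem Test.diff (h : Test φ) : Differentiable ℝ φ := (contDiff_infty_iff_deriv.1 h.1).1
theorem Test.sub (h : Test φ) (h' : Test ψ) : Test (φ - ψ) := ⟨h.1.sub h'.1, h.2.sub h'.2⟩
theorem CC.mul (h : CC φ) (h' : Continuous ψ) : CC fun x => φ x * ψ x := ⟨h.1.mul h', h.2.mul_right⟩
theorem CC.int (h : CC φ) : Integrable φ := h.1.integrable_of_hasCompactSupport h.2
theorem CC.sq (h : CC φ) : CC fun x => φ x ^ 2 := by simpa only [_root_.sq] using h.mul h.1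
theorem CC.bd (h : CC φ) : ∃ R, ∀ x, R ≤ |x| → φ x = 0 := by
  obtain ⟨R, -, hR⟩ := h.2.exists_pos_le_norm
  exact ⟨R, hR⟩

theorem intg (h1 : Measurable a) (h2 : ∀ R, ∃ C, ∀ x, |x| ≤ R → |a x| ≤ C) (h : CC η) : Integrable fun x => a x * η x := by
  obtain ⟨R, hR⟩ := h.bd
  obtain ⟨C, hC⟩ := h2 R
  refine (h.int.abs.const_mul C).mono' (h1.mul h.1.measurable).aestronglyMeasurable (.of_forall fun x => ?_)
  rcases le_total R |x| with e | e
  · simp [hR x e]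
  · rw [norm_mul]; exact mul_le_mul_of_nonneg_right (hC x e) (abs_nonneg _)

theorem Adm.i1 (h : Adm a V) (h' : CC η) : Integrable fun x => a x * η x :=
  intg h.1 (fun R => by
    obtain ⟨c, C, c0, e⟩ := h.2.2.1 R
    exact ⟨C, fun x hx => by rw [abs_of_pos (c0.trans_le (e x hx).1)]; exact (e x hx).2.1⟩) h'

theorem Adm.i2 (h : Adm a V) (h' : CC η) : Integrable fun x => V x * η x :=
  intg h.2.1 (fun R => by
    obtain ⟨c, C, c0, e⟩ := h.2.2.1 R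
    exact ⟨C, fun x hx => (e x hx).2.2⟩) h'

theorem Adm.fi (h : Adm a V) (h1 : Test φ) (h2 : Test ψ) :
    Integrable fun x => a x * deriv φ x * deriv ψ x + V x * φ x * ψ x := by
  simp only [mul_assoc]
  exact (h.i1 (h1.d.cc.mul h2.d.cc.1)).add (h.i2 (h1.cc.mul h2.cc.1))

theorem form_comm : form a V φ ψ = form a V ψ φ := by unfold form; congr 1; ext x; ring

theorem Adm.sub (h : Adm a V) (h1 : Test φ) (h2 : Test ψ) :
    form a V (φ - ψ) (φ - ψ) = form a V φ φ + form a V ψ ψ - 2 * form a V φ ψ := by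
  unfold form
  rw [← integral_add (h.fi h1 h1) (h.fi h2 h2), ← integral_const_mul]
  refine Eq.trans ?_ (integral_sub ((h.fi h1 h1).add (h.fi h2 h2)) ((h.fi h1 h2).const_mul 2))
  congr 1; ext x
  rw [deriv_sub (h1.diff x) (h2.diff x)]; simp only [Pi.sub_apply]; ring

open Classical in
noncomputable def tl (η : ℝ → ℝ) : L2 := if h : MemLp η 2 volume then h.toLp η else 0

theorem CC.tl (h : CC η) : tl η =ᵐ[volume] η := by
  have := h.1.memLp_of_hasCompactSupport (p := 2) (μ := volume) h.2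
  rw [MP_ca5fa5_an.tl, dif_pos this]; exact this.coeFn_toLp

theorem inn (u v : L2) : ⟪u, v⟫ = ∫ x, u x * v x := by simp [L2.inner_def, mul_comm]

theorem inn_tl (u : L2) (h : CC η) : ⟪u, tl η⟫ = ∫ x, u x * η x := by
  rw [inn]; exact integral_congr_ae (h.tl.mono fun x e => by simp [e])

theorem inn_tl2 (h : CC φ) (h' : CC η) : ⟪tl φ, tl η⟫ = ∫ x, φ x * η x := by
  rw [inn_tl _ h']; exact integral_congr_ae (h.tl.mono fun x e => by simp [e])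

theorem nsq (h : CC φ) : ‖tl φ‖ ^ 2 = ∫ x, φ x ^ 2 := by rw [← real_inner_self_eq_norm_sq, inn_tl2 h h]; simp [sq]

theorem nsq_sub (u : L2) (h : CC φ) : ‖tl φ - u‖ ^ 2 = ∫ x, (φ x - u x) ^ 2 := by
  rw [← real_inner_self_eq_norm_sq, inn]
  refine integral_congr_ae ?_
  filter_upwards [h.tl, Lp.coeFn_sub (tl φ) u] with x e1 e2
  rw [e2, Pi.sub_apply, e1, sq]

theorem cv {φ : ℕ → ℝ → ℝ} (h : ∀ n, Test (φ n)) (h' : Tendsto (fun n => ∫ x, (φ n x - u x) ^ 2) atTop (𝓝 0)) :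
    Tendsto (fun n => tl (φ n)) atTop (𝓝 u) := by
  rw [tendsto_iff_norm_sub_tendsto_zero]
  simpa [← nsq_sub u (h _).cc] using h'.sqrt

theorem Graph.g1 (h : Adm a V) (g : Graph a V u w) {ε : ℝ} (e0 : 0 < ε) :
    ∃ φ, Test φ ∧ ∫ x, (φ x - u x) ^ 2 ≤ ε ∧ form a V φ φ ≤ 2 * ⟪w, u⟫ + ε := by
  obtain ⟨φ, p1, p2, p3, p4⟩ := g
  obtain ⟨⟨n1, n2⟩, hN⟩ := eventually_atTop.1 (p3.eventually (gt_mem_nhds (half_pos e0)))
  obtain ⟨m, ⟨m1, m2⟩, m3⟩ := (((p2.eventually (gt_mem_nhds e0)).and (((tendsto_const_nhds (x := w)).inner (𝕜 := ℝ)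
    (cv p1 p2)).eventually (gt_mem_nhds (lt_add_of_pos_right _ (by positivity : 0 < ε / 4))))).and (eventually_ge_atTop n2)).exists
  refine ⟨φ m, p1 m, m1.le, ?_⟩
  have := ge_of_tendsto (((p4 _ (p1 m)).const_mul 2).const_add (ε / 2)) (b := form a V (φ m) (φ m)) (by
    filter_upwards [eventually_ge_atTop n1] with n hn
    have := hN (n, m) ⟨hn, m3⟩
    rw [h.sub (p1 n) (p1 m)] at this
    linarith [h.2.2.2 _ (p1 n)])
  rw [← inn_tl _ (p1 m).cc] at this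
  linarith

def Op (a V ψ z : ℝ → ℝ) : Prop := Test ψ ∧ CC z ∧ ∀ φ, Test φ → form a V φ ψ = ∫ x, φ x * z x

theorem Graph.g2 (g : Graph a V u w) (o : Op a V ψ z) : ⟪w, tl ψ⟫ = ⟪u, tl z⟫ := by
  obtain ⟨φ, p1, p2, -, p4⟩ := g
  refine tendsto_nhds_unique (inn_tl w o.1.cc ▸ p4 ψ o.1) ?_
  simpa only [o.2.2 _ (p1 _), inn_tl2 (p1 _).cc o.2.1] using (cv p1 p2).inner (𝕜 := ℝ) (tendsto_const_nhds (x := tl z))

theorem Op.g3 (o : Op a V f z) : Graph a V (tl f) (tl z) := by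
  refine ⟨fun _ => f, fun _ => o.1, ?_, by simp [form], fun ψ h => ?_⟩
  · simp [← nsq_sub _ o.1.cc]
  · beta_reduce
    rw [form_comm, o.2.2 ψ h, ← inn_tl2 h.cc o.2.1, real_inner_comm, inn_tl _ h.cc]; exact tendsto_const_nhds

theorem ibp (hV : Continuous V) (h : Test ψ) (e : ∀ x, a x * deriv ψ x = deriv ψ x) :
    Op a V ψ fun x => V x * ψ x - deriv (deriv ψ) x := by
  refine ⟨h, ⟨(hV.mul h.cc.1).sub h.d.d.cc.1, h.2.mul_left.sub h.d.d.2⟩, fun φ p => ?_⟩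
  have := integral_mul_deriv_eq_deriv_mul_of_integrable (u := φ) (v := deriv ψ) (fun x _ => (p.diff x).hasDerivAt)
    (fun x _ => (h.d.diff x).hasDerivAt) (p.cc.mul h.d.d.cc.1).int (p.d.cc.mul h.d.cc.1).int (p.cc.mul h.d.cc.1).int
  simp only [mul_sub]
  have i : Integrable fun x => φ x * (V x * ψ x) := (p.cc.mul (hV.mul h.cc.1)).int
  rw [integral_sub i (p.cc.mul h.d.d.cc.1).int, this, sub_neg_eq_add, ← integral_add i (p.d.cc.mul h.d.cc.1).int]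
  unfold form; congr 1; ext x
  linear_combination deriv φ x * e x

variable {T : ℝ → L2 →L[ℝ] L2} {k : ℝ → ℝ → ℝ → ℝ}

theorem Heat.orb (h : Heat a V T k) (g : Graph a V u w) {t : ℝ} (t0 : 0 ≤ t) :
    HasDerivWithinAt (fun s => T s u) (-T t w) (Ici t) t ∧ Graph a V (T t u) (T t w) := by
  have d := (T t).hasFDerivAt.comp_hasDerivWithinAt 0 ((h.2.2.2.2.1 u w).2 g)
  rw [map_neg] at d
  refine ⟨?_, (h.2.2.2.2.1 _ _).1 (d.congr_of_mem (fun s hs => ?_) self_mem_Ici)⟩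
  · have := HasDerivWithinAt.scomp (h := fun s => s - t) (s := Ici t) (t' := Ici 0) t (by rwa [sub_self])
      ((hasDerivWithinAt_id t _).sub_const t) fun s hs => sub_nonneg.2 hs
    rw [one_smul] at this
    refine this.congr_of_mem (fun s hs => ?_) self_mem_Ici
    have := h.2.1 t (s - t) t0 (sub_nonneg.2 hs)
    rw [add_sub_cancel] at this
    rw [this]; rfl
  · change (T s * T t) u = (T t * T s) u
    rw [← h.2.1 s t hs t0, ← h.2.1 t s t0 hs, add_comm]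

theorem anti {F F' : ℝ → ℝ} {c : ℝ} (h1 : ContinuousOn F (Ici 0)) (h2 : ∀ t, 0 ≤ t → HasDerivWithinAt F (F' t) (Ici t) t)
    (h3 : ∀ t, 0 ≤ t → F' t ≤ c) {t : ℝ} (t0 : 0 ≤ t) : F t ≤ F 0 + c * t :=
  image_le_of_deriv_right_le_deriv_boundary (a := 0) (b := t) (B := fun s => F 0 + c * s) (B' := fun _ => c)
    (h1.mono Icc_subset_Ici_self) (fun s hs => h2 s hs.1) (by simp) (by fun_prop)
    (fun s _ => by simpa using ((hasDerivWithinAt_id s (Ici s)).const_mul c).const_add (F 0)) (fun s hs => h3 s hs.1) ⟨t0, le_rfl⟩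

theorem Heat.s1 (h : Heat a V T k) (g : Graph a V u w) {c δ : ℝ}
    (b : ∀ t, 0 ≤ t → c * (‖T t u‖ ^ 2 - δ) ≤ 2 * ⟪T t w, T t u⟫) {t : ℝ} (t0 : 0 ≤ t) :
    Real.exp (c * t) * (‖T t u‖ ^ 2 - δ) ≤ ‖u‖ ^ 2 - δ := by
  have := anti (F := fun s => Real.exp (c * s) * (‖T s u‖ ^ 2 - δ)) (c := 0)
    (ContinuousOn.mul (by fun_prop) (((h.2.2.1 u).norm.pow 2).sub continuousOn_const))
    (fun s s0 => ((hasDerivWithinAt_id s _).const_mul c).exp.mul (((h.orb g s0).1.norm_sq).sub_const δ)) (fun s s0 => ?_) t0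
  · simpa [h.1] using this
  · have := mul_le_mul_of_nonneg_left (b s s0) (Real.exp_pos (c * s)).le
    simp only [id, inner_neg_right, real_inner_comm (T s w)]
    linarith

theorem Heat.s0 (h : Heat a V T k) (A : Adm a V) (g : Graph a V u w) {t : ℝ} (t0 : 0 ≤ t) : ‖T t u‖ ≤ ‖u‖ := by
  have := h.s1 g (c := 0) (δ := 0) (fun s s0 => le_of_forall_pos_le_add fun ε e0 => by
    obtain ⟨φ, p1, -, p3⟩ := (h.orb g s0).2.g1 A e0
    linarith [A.2.2.2 φ p1]) t0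
  exact (sq_le_sq₀ (norm_nonneg _) (norm_nonneg _)).1 (by simpa using this)

theorem Heat.s2 (h : Heat a V T k) (A : Adm a V) (g : Graph a V u w) (o : Op a V ψ z) {t : ℝ} (t0 : 0 ≤ t) :
    |⟪T t u, tl ψ⟫ - ⟪u, tl ψ⟫| ≤ ‖u‖ * ‖tl z‖ * t := by
  have k : ∀ σ : ℝ, |σ| = 1 → σ * ⟪T t u, tl ψ⟫ ≤ σ * ⟪u, tl ψ⟫ + ‖u‖ * ‖tl z‖ * t := fun σ e => by
    have := anti (F := fun s => σ * ⟪T s u, tl ψ⟫) (c := ‖u‖ * ‖tl z‖)
      (continuousOn_const.mul ((h.2.2.1 u).inner (𝕜 := ℝ) continuousOn_const))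
      (fun s s0 => ((h.orb g s0).1.inner ℝ (hasDerivWithinAt_const s _ (tl ψ))).const_mul σ) (fun s s0 => ?_) t0
    · simpa [h.1] using this
    · rw [inner_zero_right, zero_add, inner_neg_left, (h.orb g s0).2.g2 o]
      refine (le_abs_self _).trans ?_
      rw [abs_mul, e, one_mul, abs_neg]
      exact (abs_real_inner_le_norm _ _).trans (mul_le_mul_of_nonneg_right (h.s0 A g s0) (norm_nonneg _))
  have k1 := k 1 abs_one
  have k2 := k (-1) (by simp)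
  rw [abs_le]; constructor <;> linarith

theorem Heat.sq (h : Heat a V T k) (u : L2) {t : ℝ} (t0 : 0 ≤ t) : ⟪T (t + t) u, u⟫ = ‖T t u‖ ^ 2 := by
  rw [h.2.1 t t t0 t0, ← real_inner_self_eq_norm_sq]
  exact (h.2.2.2.1 t t0).isSymmetric (T t u) u

end Pool.Agent.H.MP_ca5fa5_an
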