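import Pool.Agent.H.MP_ca5fa5_an.A

open MeasureTheory Filter Topology Set
open scoped ContDiff RealInnerProductSpace

namespace Pool.Agent.H.MP_ca5fa5_an

variable {a φ u : ℝ → ℝ}

theorem cs0 {X Q σ : ℝ} (hQ : 0 ≤ Q) (hσ : 0 ≤ σ) (h : ∀ l > 0, 2 * |X| ≤ l * Q + σ / l) : X ^ 2 ≤ Q * σ := by
  rw [← sq_abs]
  have X0 := abs_nonneg X
  generalize |X| = Y at *
  rcases X0.eq_or_lt with rfl | X0
  · simpa using mul_nonneg hQ hσ
  rcases hQ.eq_or_lt with rfl | hQ
  · have := h ((σ + 1) / Y) (by positivity)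
    rw [mul_zero, zero_add, div_div_eq_mul_div, le_div_iff₀ (by positivity)] at this
    nlinarith
  · have := h (Y / Q) (by positivity)
    rw [div_mul_cancel₀ _ hQ.ne', div_div_eq_mul_div, ← sub_le_iff_le_add', le_div_iff₀ X0] at this
    nlinarith

theorem cs1 {h : ℝ → ℝ} {p q : ℝ} (h1 : IntervalIntegrable h volume p q)
    (h2 : IntervalIntegrable (fun x => h x ^ 2) volume p q) (c : ℝ) :
    ∫ x in p..q, (h x - c) ^ 2 = (∫ x in p..q, h x ^ 2) - 2 * c * (∫ x in p..q, h x) + c ^ 2 * (q - p) := by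
  rw [show (fun x => (h x - c) ^ 2) = fun x => h x ^ 2 - 2 * c * h x + c ^ 2 by ext; ring,
    intervalIntegral.integral_add (h2.sub (h1.const_mul _)) (by simp), intervalIntegral.integral_sub h2 (h1.const_mul _)]
  simp [mul_comm]

theorem poin (hφ : Test φ) (a1 : ∀ x, 1 ≤ a x) (ai : Integrable fun x => a x * deriv φ x ^ 2) {p b r : ℝ} (p0 : 0 ≤ p)
    (pb : p ≤ b) (br : b ≤ r) (ae : ∀ s ∈ Ioo b r, a s = Real.exp s) :
    ∫ x in p..r + 1, φ x ^ 2 ≤ (2 * (b - p) * (b - p + 1) + 2) * (∫ x in p..r + 1, a x * deriv φ x ^ 2) +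
      (∫ x in p..r + 1, φ x) ^ 2 / (r + 1 - p) := by
  have n0 : ∀ x, 0 ≤ a x * deriv φ x ^ 2 := fun x => mul_nonneg (one_pos.le.trans (a1 x)) (sq_nonneg _)
  have Q0 : 0 ≤ ∫ x in p..r + 1, a x * deriv φ x ^ 2 := intervalIntegral.integral_nonneg (by linarith) fun x _ => n0 x
  have pt : ∀ x y (w : ℝ → ℝ), Continuous w → (∀ s, 0 < w s) → (∀ s ∈ Ioo x y, 1 ≤ a s * w s) → p ≤ x → x ≤ y → y ≤ r + 1 →
      (φ y - φ x) ^ 2 ≤ (∫ x in p..r + 1, a x * deriv φ x ^ 2) * ∫ s in x..y, w s := fun x y w w1 w2 w3 h1 h2 h3 => by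
    refine cs0 Q0 (intervalIntegral.integral_nonneg h2 fun s _ => (w2 s).le) fun l l0 => ?_
    rw [← intervalIntegral.integral_deriv_eq_sub (fun s _ => hφ.diff s) (hφ.d.cc.1.intervalIntegrable _ _)]
    have i1 := (ai.intervalIntegrable (a := x) (b := y)).const_mul l
    have i2 := (w1.intervalIntegrable (μ := volume) x y).div_const l
    have k1 := intervalIntegral.abs_integral_le_integral_abs (μ := volume) (f := deriv φ) h2
    have k2 := intervalIntegral.integral_mono_on_of_le_Ioo h2 ((hφ.d.cc.1.abs.intervalIntegrable x y).const_mul 2) (i1.add i2)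
      fun s hs => by
        have := w3 s hs
        have := w2 s
        rw [← sq_abs, ← sub_nonneg]
        generalize |deriv φ s| = d
        have e : l * (a s * d ^ 2) + w s / l - 2 * d = ((l * d - w s) ^ 2 + (a s * w s - 1) * (l * d) ^ 2) / (l * w s) := by
          field_simp; ring
        rw [e]
        exact div_nonneg (add_nonneg (sq_nonneg _) (mul_nonneg (by linarith) (sq_nonneg _))) (by positivity)
    rw [intervalIntegral.integral_add i1 i2, intervalIntegral.integral_const_mul, intervalIntegral.integral_const_mul,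
      intervalIntegral.integral_div] at k2
    have k3 := intervalIntegral.integral_mono_interval h1 h2 h3 (.of_forall n0) ai.intervalIntegrable
    nlinarith
  generalize (∫ x in p..r + 1, a x * deriv φ x ^ 2) = Q at *
  have e1 : ∀ x ∈ Icc b r, (φ x - φ r) ^ 2 ≤ Q * Real.exp (-x) := fun x hx => by
    have := pt x r (fun s => Real.exp (-s)) (by fun_prop) (fun _ => Real.exp_pos _)
      (fun s hs => by rw [ae s ⟨hx.1.trans_lt hs.1, hs.2⟩, ← Real.exp_add]; simp) (pb.trans hx.1) hx.2 (by linarith)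
    rw [intervalIntegral.integral_comp_neg, integral_exp] at this
    nlinarith [Real.exp_pos (-r)]
  have c : Continuous fun x => (φ x - φ r) ^ 2 := (hφ.cc.1.sub continuous_const).pow 2
  have k1 := intervalIntegral.integral_mono_on (μ := volume) pb (c.intervalIntegrable _ _)
    (continuous_const (y := 2 * (b - p + 1) * Q).intervalIntegrable _ _) fun x hx => by
      have := pt x b (fun _ => 1) continuous_const (fun _ => one_pos) (fun s _ => by simpa using a1 s) hx.1 hx.2 (by linarith)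
      have h2 := e1 b ⟨le_rfl, br⟩
      have h3 := mul_le_mul_of_nonneg_left (Real.exp_le_one_iff.2 (by linarith : -b ≤ 0)) Q0
      have h4 := mul_le_mul_of_nonneg_left (sub_le_sub_left hx.1 b) Q0
      simp at this
      nlinarith [sq_nonneg (φ b - φ x + (φ b - φ r))]
  have k2 := intervalIntegral.integral_mono_on (μ := volume) br (c.intervalIntegrable _ _)
    ((by fun_prop : Continuous fun x => Q * Real.exp (-x)).intervalIntegrable _ _) e1
  have k3 := intervalIntegral.integral_mono_on (μ := volume) (by linarith : r ≤ r + 1) (c.intervalIntegrable _ _)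
    (continuous_const (y := Q).intervalIntegrable _ _) fun x hx => by
      have := pt r x (fun _ => 1) continuous_const (fun _ => one_pos) (fun s _ => by simpa using a1 s) (by linarith) hx.1 hx.2
      simp at this
      nlinarith [hx.2]
  rw [intervalIntegral.integral_const_mul, intervalIntegral.integral_comp_neg, integral_exp] at k2
  have k4 := intervalIntegral.integral_add_adjacent_intervals (μ := volume) (c.intervalIntegrable p b) (c.intervalIntegrable b r)
  have k5 := intervalIntegral.integral_add_adjacent_intervals (μ := volume) (c.intervalIntegrable p r)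
    (c.intervalIntegrable r (r + 1))
  have l0 : 0 < r + 1 - p := by linarith
  have k6 := cs1 (hφ.cc.1.intervalIntegrable p (r + 1)) (hφ.cc.sq.1.intervalIntegrable _ _) (φ r)
  have k7 : 2 * φ r * (∫ x in p..r + 1, φ x) - φ r ^ 2 * (r + 1 - p) ≤ (∫ x in p..r + 1, φ x) ^ 2 / (r + 1 - p) := by
    rw [le_div_iff₀ l0]; nlinarith [sq_nonneg ((∫ x in p..r + 1, φ x) - φ r * (r + 1 - p))]
  have h3 := mul_le_mul_of_nonneg_left (Real.exp_le_one_iff.2 (by linarith : -b ≤ 0)) Q0
  have h4 := mul_nonneg Q0 (Real.exp_pos (-r)).le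
  simp only [intervalIntegral.integral_const, smul_eq_mul] at k1 k3
  nlinarith

theorem poin2 (hφ : CC φ) (hu : MemLp u 2) (u0 : 0 ≤ᵐ[volume] u) {p q N E : ℝ} (E0 : 0 < E) (pq : E ≤ q - p)
    (hN : ∫ x in p..q, u x ≤ N) : (∫ x in p..q, φ x) ^ 2 / (q - p) ≤
      2 * N / E * (∫ x in p..q, u x) + 2 * ∫ x in p..q, (φ x - u x) ^ 2 := by
  have l0 : 0 < q - p := by linarith
  have i1 : IntervalIntegrable u volume p q := ((hu.locallyIntegrable (by norm_num)).integrableOn_isCompact isCompact_uIcc).intervalIntegrable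
  have i2 := (hφ.1.intervalIntegrable (μ := volume) p q).sub i1
  have i3 : IntervalIntegrable (fun x => (φ x - u x) ^ 2) volume p q :=
    ((hφ.1.memLp_of_hasCompactSupport hφ.2).sub hu).integrable_sq.intervalIntegrable
  have k := cs1 i2 i3 ((∫ x in p..q, φ x - u x) / (q - p))
  have k0 : 0 ≤ ∫ x in p..q, (φ x - u x - (∫ x in p..q, φ x - u x) / (q - p)) ^ 2 :=
    intervalIntegral.integral_nonneg (by linarith) fun _ _ => sq_nonneg _
  have I0 : 0 ≤ ∫ x in p..q, u x := intervalIntegral.integral_nonneg_of_ae (by linarith) u0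
  rw [k, intervalIntegral.integral_sub (hφ.1.intervalIntegrable p q) i1] at k0
  generalize (∫ x in p..q, u x) = I at *
  generalize (∫ x in p..q, φ x) = J at *
  generalize (∫ x in p..q, (φ x - u x) ^ 2) = S at *
  generalize q - p = l at *
  have a1 : (J - I) ^ 2 / l ≤ S := by
    have : 2 * ((J - I) / l) * (J - I) - ((J - I) / l) ^ 2 * l = (J - I) ^ 2 / l := by field_simp; ring
    linarith
  have a2 : I ^ 2 / l ≤ N / E * I := by
    rw [sq, mul_div_right_comm]
    exact mul_le_mul_of_nonneg_right (div_le_div₀ (I0.trans hN) hN E0 pq) I0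
  have a3 : J ^ 2 / l ≤ 2 * (I ^ 2 / l) + 2 * ((J - I) ^ 2 / l) := by
    rw [← mul_div_assoc, ← mul_div_assoc, ← add_div]
    exact div_le_div_of_nonneg_right (by nlinarith [sq_nonneg (J - 2 * I)]) l0.le
  rw [mul_div_assoc, mul_assoc]
  linarith

def Mf (x : ℝ) : ℝ := 2 * (x + 1) * (x + 2) + 2

noncomputable def g : ℕ → ℝ
  | 0 => 1
  | j + 1 => g j + 1 + Real.exp (Mf (g j))

theorem g_ge (j : ℕ) : 1 + j ≤ g j := by
  induction j with
  | zero => simp [g]
  | succ j ih => rw [g]; push_cast; linarith [Real.exp_pos (Mf (g j))]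

theorem g_pos (j : ℕ) : 0 < g j := lt_of_lt_of_le (by positivity) (g_ge j)
theorem g_lt (j : ℕ) : g j + 1 < g (j + 1) := by rw [g]; linarith [Real.exp_pos (Mf (g j))]
theorem g_mono : Monotone g := monotone_nat_of_le_succ fun j => by linarith [g_lt j]
theorem g_sep {j k : ℕ} (h : j < k) : g j + 1 < g k := (g_lt j).trans_le (g_mono h)
theorem M_mono {j k : ℕ} (h : j ≤ k) : Mf (g j) ≤ Mf (g k) := by
  have := g_mono h; have := g_pos j; unfold Mf; nlinarith
theorem M_ge (j : ℕ) : 2 + j ≤ Mf (g j) := by have := g_ge j; have := g_pos j; unfold Mf; nlinarith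

open Classical in
noncomputable def a0 (x : ℝ) : ℝ := if ∃ k, |x| ∈ Icc (g k) (g k + 1) then 1 else Real.exp |x|

theorem a0_ge (x : ℝ) : 1 ≤ a0 x := by unfold a0; split_ifs; exacts [le_rfl, Real.one_le_exp (abs_nonneg x)]
theorem a0_le (x : ℝ) : a0 x ≤ Real.exp |x| := by unfold a0; split_ifs; exacts [Real.one_le_exp (abs_nonneg x), le_rfl]
theorem a0_neg (x : ℝ) : a0 (-x) = a0 x := by rw [a0, abs_neg]; rfl
theorem a0_exp (j : ℕ) : ∀ s ∈ Ioo (g j + 1) (g (j + 1)), a0 s = Real.exp s := fun s hs => by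
  have s0 : |s| = s := abs_of_pos (by linarith [g_pos j, hs.1])
  rw [a0, s0, if_neg]
  rintro ⟨k, h1, h2⟩
  rcases le_or_gt k j with e | e
  · linarith [g_mono e, hs.1]
  · linarith [g_mono (Nat.succ_le_of_lt e), hs.2]

theorem adm0 : Adm a0 0 := by
  refine ⟨Measurable.ite ?_ measurable_const (by fun_prop), measurable_const, fun R => ⟨1, Real.exp R, one_pos, fun x hx =>
    ⟨a0_ge x, (a0_le x).trans (Real.exp_le_exp.2 hx), by simp [Real.exp_nonneg]⟩⟩, fun φ _ => integral_nonneg fun x => ?_⟩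
  · rw [ofPred_exists]
    exact .iUnion fun k => measurableSet_Icc.preimage measurable_abs
  · simpa [mul_assoc] using mul_nonneg (one_pos.le.trans (a0_ge x)) (mul_self_nonneg _)

theorem half (hφ : Test φ) (hu : MemLp u 2) (u0 : 0 ≤ᵐ[volume] u) {N : ℝ} (hN : ∀ p q, p ≤ q → ∫ x in p..q, u x ≤ N) (j K : ℕ) :
    ∫ x in 0..g (j + 1 + K) + 1, φ x ^ 2 ≤ Mf (g j) * (∫ x in 0..g (j + 1 + K) + 1, a0 x * deriv φ x ^ 2) +
      2 * N / Real.exp (Mf (g j)) * (∫ x in 0..g (j + 1 + K) + 1, u x) + 2 * ∫ x in 0..g (j + 1 + K) + 1, (φ x - u x) ^ 2 := by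
  have ai := adm0.i1 hφ.d.cc.sq
  induction K with
  | zero =>
    have := g_pos j
    have k1 := poin hφ a0_ge ai le_rfl (by linarith) (g_lt j).le (a0_exp j)
    have k2 := poin2 hφ.cc hu u0 (p := 0) (q := g (j + 1) + 1) (Real.exp_pos (Mf (g j))) (by rw [g]; linarith)
      (hN _ _ (by linarith [g_pos (j + 1)]))
    rw [show 2 * (g j + 1 - 0) * (g j + 1 - 0 + 1) + 2 = Mf (g j) by unfold Mf; ring] at k1
    rw [add_zero]; linarith
  | succ K ih =>
    rw [← add_assoc]
    have le : j ≤ j + 1 + K := by omega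
    generalize j + 1 + K = k at *
    have := g_pos k
    have := g_lt k
    have k1 := poin hφ a0_ge ai (by linarith) le_rfl (g_lt k).le (a0_exp k)
    have k2 := poin2 hφ.cc hu u0 (p := g k + 1) (q := g (k + 1) + 1) (Real.exp_pos (Mf (g j)))
      (by rw [g]; linarith [Real.exp_le_exp.2 (M_mono le)]) (hN _ _ (by linarith))
    have i1 : ∀ p q, IntervalIntegrable u volume p q := fun p q =>
      ((hu.locallyIntegrable (by norm_num)).integrableOn_isCompact isCompact_uIcc).intervalIntegrable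
    have i3 : Integrable fun x => (φ x - u x) ^ 2 := ((hφ.cc.1.memLp_of_hasCompactSupport hφ.2).sub hu).integrable_sq
    have Q0 : 0 ≤ ∫ x in g k + 1..g (k + 1) + 1, a0 x * deriv φ x ^ 2 :=
      intervalIntegral.integral_nonneg (by linarith) fun x _ => mul_nonneg (one_pos.le.trans (a0_ge x)) (sq_nonneg _)
    have := mul_le_mul_of_nonneg_right ((le_add_of_nonneg_right (Nat.cast_nonneg j)).trans (M_ge j)) Q0
    rw [← intervalIntegral.integral_add_adjacent_intervals (b := g k + 1) hφ.cc.sq.int.intervalIntegrable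
      hφ.cc.sq.int.intervalIntegrable, ← intervalIntegral.integral_add_adjacent_intervals (b := g k + 1) ai.intervalIntegrable
      ai.intervalIntegrable, ← intervalIntegral.integral_add_adjacent_intervals (b := g k + 1) (i1 _ _) (i1 _ _),
      ← intervalIntegral.integral_add_adjacent_intervals (b := g k + 1) i3.intervalIntegrable i3.intervalIntegrable]
    simp only [sub_self, mul_zero, zero_mul, zero_add] at k1
    linarith

theorem nash0 (hφ : Test φ) (hu : MemLp u 2) (u0 : 0 ≤ᵐ[volume] u) {N : ℝ} (hN : ∀ p q, p ≤ q → ∫ x in p..q, u x ≤ N) (j : ℕ) :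
    ∫ x, φ x ^ 2 ≤ Mf (g j) * form a0 0 φ φ + 2 * N ^ 2 / Real.exp (Mf (g j)) + 2 * ∫ x, (φ x - u x) ^ 2 := by
  obtain ⟨R, hR⟩ := hφ.cc.bd
  obtain ⟨K, hK⟩ := exists_nat_ge R
  have k1 := half hφ hu u0 hN j K
  have k2 := half (φ := fun x => φ (-x)) (u := fun x => u (-x)) ⟨hφ.1.comp contDiff_neg, hφ.2.comp_homeomorph (.neg ℝ)⟩
    (hu.comp_measurePreserving (Measure.measurePreserving_neg _))
    ((Measure.measurePreserving_neg _).quasiMeasurePreserving.ae u0) (N := N)
    (fun p q h => by rw [intervalIntegral.integral_comp_neg]; exact hN _ _ (neg_le_neg h)) j K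
  have hK' : R ≤ g (j + 1 + K) := by have := g_ge (j + 1 + K); push_cast at this; linarith [Nat.cast_nonneg (α := ℝ) j]
  have S0 := g_pos (j + 1 + K)
  generalize g (j + 1 + K) = S at *
  simp only [deriv_comp_neg, neg_sq] at k2
  rw [intervalIntegral.integral_comp_neg fun x => φ x ^ 2, intervalIntegral.integral_comp_neg u,
    intervalIntegral.integral_comp_neg fun x => (φ x - u x) ^ 2, show (fun x => a0 x * deriv φ (-x) ^ 2) =
      fun x => a0 (-x) * deriv φ (-x) ^ 2 by simp [a0_neg], intervalIntegral.integral_comp_neg fun x => a0 x * deriv φ x ^ 2,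
    neg_zero] at k2
  have ai := adm0.i1 hφ.d.cc.sq
  have i1 : ∀ p q, IntervalIntegrable u volume p q := fun p q =>
    ((hu.locallyIntegrable (by norm_num)).integrableOn_isCompact isCompact_uIcc).intervalIntegrable
  have i3 : Integrable fun x => (φ x - u x) ^ 2 := ((hφ.cc.1.memLp_of_hasCompactSupport hφ.2).sub hu).integrable_sq
  have le : ∀ F : ℝ → ℝ, Integrable F → (∀ x, 0 ≤ F x) → (∫ x in -(S + 1)..0, F x) + ∫ x in 0..S + 1, F x ≤ ∫ x, F x :=
    fun F h1 h2 => by
      rw [intervalIntegral.integral_add_adjacent_intervals h1.intervalIntegrable h1.intervalIntegrable,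
        intervalIntegral.integral_of_le (by linarith)]
      exact setIntegral_le_integral h1 (.of_forall h2)
  have a1 := mul_le_mul_of_nonneg_left (le _ ai fun x => mul_nonneg (one_pos.le.trans (a0_ge x)) (sq_nonneg _))
    (le_trans (by positivity) (M_ge j))
  have a2 := le _ i3 fun x => sq_nonneg _
  have a3 := hN (-(S + 1)) (S + 1) (by linarith)
  have N0 : 0 ≤ N := by simpa using hN 0 0 le_rfl
  rw [← intervalIntegral.integral_add_adjacent_intervals (b := 0) (i1 _ _) (i1 _ _)] at a3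
  have a4 := mul_le_mul_of_nonneg_left a3 (by positivity : 0 ≤ 2 * N / Real.exp (Mf (g j)))
  rw [← intervalIntegral.integral_eq_integral_of_support_subset (a := -(S + 1)) (b := S + 1) fun x hx => by
    have := abs_lt.1 (not_le.1 fun e : R ≤ |x| => hx (by simp [hR x e]))
    exact ⟨by linarith, by linarith⟩, ← intervalIntegral.integral_add_adjacent_intervals (b := 0) hφ.cc.sq.int.intervalIntegrable
      hφ.cc.sq.int.intervalIntegrable, show form a0 0 φ φ = ∫ x, a0 x * deriv φ x ^ 2 by simp [form, sq, mul_assoc],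
      show 2 * N ^ 2 / Real.exp (Mf (g j)) = 2 * N / Real.exp (Mf (g j)) * N by ring]
  linarith

theorem nash {u w : L2} (h : Graph a0 0 u w) (u0 : 0 ≤ᵐ[volume] u) {N : ℝ} (hN : ∀ p q, p ≤ q → ∫ x in p..q, u x ≤ N) (j : ℕ) :
    1 / (2 * Mf (g j)) * (‖u‖ ^ 2 - 4 * N ^ 2 / Real.exp (Mf (g j))) ≤ 2 * ⟪w, u⟫ := by
  have M0 : 0 < Mf (g j) := lt_of_lt_of_le (by positivity) (M_ge j)
  rw [one_div, inv_mul_le_iff₀ (by positivity)]
  refine le_of_forall_pos_le_add fun ε e0 => ?_
  obtain ⟨φ, p1, p2, p3⟩ := h.g1 adm0 (ε := ε / (2 * Mf (g j) + 6)) (by positivity)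
  have k := nash0 p1 (Lp.memLp u) u0 hN j
  rw [← nsq_sub u p1.cc] at k p2
  rw [← nsq p1.cc] at k
  have t := norm_sub_le (tl φ) (tl φ - u)
  rw [sub_sub_cancel] at t
  have t2 : ‖u‖ ^ 2 ≤ 2 * ‖tl φ‖ ^ 2 + 2 * ‖tl φ - u‖ ^ 2 := by
    nlinarith [norm_nonneg u, sq_nonneg (‖tl φ‖ - ‖tl φ - u‖)]
  have := mul_le_mul_of_nonneg_left p3 M0.le
  have e : (2 * Mf (g j) + 6) * (ε / (2 * Mf (g j) + 6)) = ε := by field_simp
  rw [show 4 * N ^ 2 / Real.exp (Mf (g j)) = 2 * (2 * N ^ 2 / Real.exp (Mf (g j))) by ring]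
  linarith

end Pool.Agent.H.MP_ca5fa5_an
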