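import Pool.Agent.H.MP_ca5fa5_an.C

open MeasureTheory Filter Topology Set Real
open scoped ContDiff RealInnerProductSpace

namespace Pool.Agent.H.MP_ca5fa5_an

def InfZero (a V : ℝ → ℝ) : Prop := ∀ ε > 0, ∃ φ, Test φ ∧ form a V φ φ < ε * ∫ x, φ x ^ 2

def Subcritical (a V : ℝ → ℝ) : Prop :=
  ∃ ρ : ℝ → ℝ, ContDiff ℝ ∞ ρ ∧ (∀ x, 0 < ρ x) ∧ ∀ φ, Test φ → ∫ x, ρ x * φ x ^ 2 ≤ form a V φ φ

def Critical (a V : ℝ → ℝ) : Prop := ∀ W, Test W → (∀ x, 0 ≤ W x) → W ≠ 0 → ∃ φ, Test φ ∧ form a (V - W) φ φ < 0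

theorem ro_pos (x : ℝ) : 0 < ro x := by unfold ro; positivity

theorem admP : Adm (fun _ => 1) ro :=
  ⟨measurable_const, ro_s.continuous.measurable, fun R => ⟨1, 1, one_pos, fun x _ => ⟨le_rfl, le_rfl, by
    rw [abs_of_pos (ro_pos x), ro, div_le_one (by positivity)]; nlinarith [sq_nonneg x]⟩⟩,
    fun φ _ => integral_nonneg fun x => by
      simpa [mul_assoc] using add_nonneg (mul_self_nonneg (deriv φ x)) (mul_nonneg (ro_pos x).le (mul_self_nonneg (φ x)))⟩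

theorem subP : Subcritical (fun _ => 1) ro :=
  ⟨ro, ro_s, ro_pos, fun φ h => integral_mono (admP.i2 h.cc.sq) (admP.fi h h) fun x => by
    beta_reduce; nlinarith [mul_self_nonneg (deriv φ x)]⟩

theorem ge1 {ψ : ℝ → ℝ} (h : CC ψ) (e : ∀ x, |x| ≤ 2 → 1 ≤ ψ x) : 1 ≤ ∫ x, ψ x ^ 2 := by
  refine le_trans ?_ (setIntegral_le_integral (s := Icc 0 1) h.sq.int (.of_forall fun _ => sq_nonneg _))
  refine le_trans (by simp) (setIntegral_mono_on (integrableOn_const (C := (1 : ℝ)) (by simp)) h.sq.int.integrableOn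
    measurableSet_Icc fun x hx => one_le_pow₀ (e x (abs_le.2 ⟨by linarith [hx.1], by linarith [hx.2]⟩)))

theorem infP : InfZero (fun _ => 1) ro := fun ε e0 => by
  obtain ⟨K, K0, h⟩ := big
  obtain ⟨G, z, o, -, p, q, -⟩ := h (2 + K / ε) (le_add_of_nonneg_right (by positivity))
  refine ⟨G, o.1, ?_⟩
  have a := ge1 o.1.cc p
  rw [o.2.2 G o.1, ← inn_tl2 o.1.cc o.2.1, ← nsq o.1.cc] at *
  have b : K / (2 + K / ε) < ε := by rw [div_lt_iff₀ (by positivity), mul_add, mul_div_cancel₀ _ e0.ne']; linarith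
  have c : 1 ≤ ‖tl G‖ := by nlinarith [norm_nonneg (tl G)]
  have d := real_inner_le_norm (tl G) (tl z)
  have e := mul_lt_mul_of_pos_left (q.trans_lt b) (one_pos.trans_le c)
  nlinarith [mul_nonneg e0.le (mul_nonneg (norm_nonneg (tl G)) (sub_nonneg.2 c))]

theorem inf0 : InfZero a0 0 := fun ε e0 => by
  obtain ⟨ψ, p1, -, p2, p3, p4, -⟩ := cut 2 (half_pos e0)
  refine ⟨ψ, p1, ?_⟩
  have a := ge1 p1.cc fun x h => (p2 x h).ge
  rw [show form a0 0 ψ ψ = ∫ x, deriv ψ x ^ 2 by simp [form, p3, sq]]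
  nlinarith

theorem crit : Critical a0 0 := fun W h1 h2 h3 => by
  obtain ⟨x, hx⟩ := Function.ne_iff.1 h3
  have I0 := h1.cc.1.integral_pos_of_hasCompactSupport_nonneg_nonzero (μ := volume) h1.2 h2 hx
  obtain ⟨R, hR⟩ := h1.cc.bd
  obtain ⟨ψ, p1, -, p2, p3, p4, -⟩ := cut R (half_pos I0)
  refine ⟨ψ, p1, ?_⟩
  rw [show form a0 (0 - W) ψ ψ = (∫ x, deriv ψ x ^ 2) - ∫ x, W x by
    rw [← integral_sub p1.d.cc.sq.int h1.cc.int, form]
    congr 1; ext x
    rcases le_total R |x| with e | e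
    · simp [p3, hR x e, sq]
    · simp [p3, p2 x e, sq, sub_eq_add_neg]]
  linarith

noncomputable def f0 (x : ℝ) : ℝ := et (x - 1)

theorem f0_0 {x : ℝ} (h : x ∉ Icc (1 : ℝ) 2) : f0 x = 0 ∧ deriv f0 x = 0 := by
  have := et0 (y := x - 1) fun e => h ⟨by linarith [e.1], by linarith [e.2]⟩
  exact ⟨this.1, (deriv_comp_sub_const _ _ _).trans this.2⟩
theorem f0_t : Test f0 := ⟨et_t.1.comp (contDiff_id.sub contDiff_const), .intro isCompact_Icc fun _ h => (f0_0 h).1⟩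
theorem f0_nn (x : ℝ) : 0 ≤ f0 x := smoothTransition.monotone.deriv_nonneg
theorem f0_i : 0 < ∫ x, f0 x := by
  have := intervalIntegral.integral_eq_sub_of_hasDerivAt (a := 0) (b := 1) (fun x _ => th_d x) et_t.cc.int.intervalIntegrable
  rw [intervalIntegral.integral_of_le one_pos.le] at this
  have h := setIntegral_le_integral (s := Ioc 0 1) et_t.cc.int (.of_forall fun _ => smoothTransition.monotone.deriv_nonneg)
  unfold f0
  rw [integral_sub_right_eq_self et]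
  simp at this
  linarith

variable {T T' : ℝ → L2 →L[ℝ] L2} {k k' : ℝ → ℝ → ℝ → ℝ} {a V a' V' : ℝ → ℝ}

theorem im (u : L2) {η : ℝ → ℝ} (h : CC η) : Integrable fun x => u x * η x :=
  (Lp.memLp u).integrable_mul (h.1.memLp_of_hasCompactSupport (p := 2) h.2)

theorem Heat.ker (h : Heat a V T k) {t : ℝ} (t0 : 0 < t) : T t (tl f0) =ᵐ[volume] fun x => ∫ y, k t x y * f0 y :=
  ((h.2.2.2.2.2 t t0).2.2 _).trans (.of_forall fun x => integral_congr_ae (f0_t.cc.tl.mono fun y e => by simp [e]))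

theorem upper (h : Heat a0 0 T k) (j : ℕ) {t : ℝ} (t0 : 0 ≤ t) :
    ‖T t (tl f0)‖ ^ 2 ≤ exp (-(t / (2 * Mf (g j)))) * ‖tl f0‖ ^ 2 + 4 * (∫ x, f0 x) ^ 2 / exp (Mf (g j)) := by
  have G := (ibp (a := a0) (V := 0) continuous_zero f0_t fun x => by
    by_cases e : x ∈ Icc (1 : ℝ) 2
    · rw [a0, if_pos ⟨0, by rw [abs_of_nonneg (by linarith [e.1]), g, one_add_one_eq_two]; exact e⟩, one_mul]
    · simp [(f0_0 e).2]).g3
  have := h.s1 G (fun s s0 => nash (h.orb G s0).2 ?_ (N := ∫ x, f0 x) ?_ j) t0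
  · rw [← le_inv_mul_iff₀ (exp_pos _), ← exp_neg, mul_sub, one_div, inv_mul_eq_div] at this
    have : 0 ≤ exp (-(t / (2 * Mf (g j)))) * (4 * (∫ x, f0 x) ^ 2 / exp (Mf (g j))) := by positivity
    linarith
  all_goals
    have pos : 0 ≤ᵐ[volume] T s (tl f0) := by
      rcases s0.eq_or_lt with rfl | s0
      · rw [h.1]; exact f0_t.cc.tl.mono fun x e => (f0_nn x).trans_eq e.symm
      · exact (h.ker s0).mono fun x e => le_of_le_of_eq (integral_nonneg fun y =>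
          mul_nonneg ((h.2.2.2.2.2 s s0).2.1 x y).le (f0_nn y)) e.symm
  · exact pos
  refine fun p q pq => le_of_forall_pos_le_add fun ε e0 => ?_
  obtain ⟨ψ, p1, p2, p3, p4, -, p5⟩ := cut (|p| + |q|) (ε := (ε / (‖tl f0‖ * s + 1)) ^ 2) (by positivity)
  have o := ibp (a := a0) (V := 0) continuous_zero p1 p4
  have b := (abs_le.1 (h.s2 adm0 G o s0)).2
  have c := nsq o.2.1
  simp only [Pi.zero_apply, zero_mul, zero_sub, neg_sq] at b c
  have d := le_of_sq_le_sq (c.trans_le p5) (by positivity)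
  rw [le_div_iff₀ (by positivity)] at d
  rw [inn_tl _ p1.cc, inn_tl2 f0_t.cc p1.cc] at b
  have e1 := integral_mono (f0_t.cc.mul p1.cc.1).int f0_t.cc.int fun x => mul_le_of_le_one_right (f0_nn x) (p2 x).2
  have e2 := setIntegral_le_integral (s := Ioc p q) (im (T s (tl f0)) p1.cc) (pos.mono fun x e => mul_nonneg e (p2 x).1)
  rw [setIntegral_congr_fun (g := T s (tl f0)) measurableSet_Ioc fun x hx => by
    simp [p3 x (abs_le.2 ⟨by linarith [hx.1, neg_abs_le p, abs_nonneg q], by linarith [hx.2, le_abs_self q, abs_nonneg p]⟩)]] at e2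
  rw [intervalIntegral.integral_of_le pq]
  nlinarith [norm_nonneg (tl fun x => -deriv (deriv ψ) x)]

theorem lower (h : Heat (fun _ => 1) ro T k) : ∃ C, ∀ t, 1 ≤ t → ∫ x, f0 x ≤ C * t ^ 3 * ‖T t (tl f0)‖ := by
  have G := (ibp (a := fun _ => 1) ro_s.continuous f0_t fun x => one_mul _).g3
  obtain ⟨K, K0, hK⟩ := big
  have N0 := f0_i
  refine ⟨12 * (2 + 2 * K * ‖tl f0‖ / ∫ x, f0 x) ^ 3, fun t t1 => ?_⟩
  obtain ⟨S, hS⟩ : ∃ S, S = (2 + 2 * K * ‖tl f0‖ / ∫ x, f0 x) * t := ⟨_, rfl⟩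
  have n0 : 0 ≤ 2 * K * ‖tl f0‖ / ∫ x, f0 x := by positivity
  have S2 : 2 ≤ S := by nlinarith
  obtain ⟨P, z, o, p1, p2, p3, p4⟩ := hK S S2
  have b := (abs_le.1 (h.s2 admP G o (by linarith : 0 ≤ t))).1
  rw [inn_tl2 f0_t.cc o.1.cc] at b
  have e1 := integral_mono f0_t.cc.int (f0_t.cc.mul o.1.cc.1).int fun x => by
    by_cases e : x ∈ Icc (1 : ℝ) 2
    · exact le_mul_of_one_le_right (f0_nn x) (p2 x (abs_le.2 ⟨by linarith [e.1], e.2⟩))
    · simp [(f0_0 e).1]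
  have e2 := (real_inner_le_norm (T t (tl f0)) (tl P)).trans (mul_le_mul_of_nonneg_left p4 (norm_nonneg _))
  have e3 : ‖tl f0‖ * ‖tl z‖ * t ≤ (∫ x, f0 x) / 2 := by
    refine (mul_le_mul_of_nonneg_right (mul_le_mul_of_nonneg_left p3 (norm_nonneg _)) (by linarith)).trans ?_
    rw [← mul_div_assoc, div_mul_eq_mul_div, div_le_div_iff₀ (by linarith) two_pos, hS, ← mul_assoc, mul_add,
      mul_div_cancel₀ _ N0.ne']
    nlinarith
  rw [mul_assoc 12, ← mul_pow, ← hS]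
  linarith

theorem cmp (h : Heat a V T k) (h' : Heat a' V' T' k') {t : ℝ} (t0 : 0 < t)
    (e : ∀ x ∈ Icc (1 : ℝ) 2, ∀ y ∈ Icc (1 : ℝ) 2, k t x y ≤ k' t x y) : ⟪T t (tl f0), tl f0⟫ ≤ ⟪T' t (tl f0), tl f0⟫ := by
  rw [inn_tl _ f0_t.cc, inn_tl _ f0_t.cc]
  refine integral_mono_ae (im _ f0_t.cc) (im _ f0_t.cc) ?_
  filter_upwards [h.ker t0, h'.ker t0] with x e1 e2
  by_cases hx : x ∈ Icc (1 : ℝ) 2
  · rw [e1, e2]
    refine mul_le_mul_of_nonneg_right (integral_mono ?_ ?_ fun y => ?_) (f0_nn x)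
    · simpa only [mul_comm] using (f0_t.cc.mul ((h.2.2.2.2.2 t t0).1.uncurry_left x)).int
    · simpa only [mul_comm] using (f0_t.cc.mul ((h'.2.2.2.2.2 t t0).1.uncurry_left x)).int
    · by_cases hy : y ∈ Icc (1 : ℝ) 2
      · exact mul_le_mul_of_nonneg_right (e x hx y hy) (f0_nn y)
      · simp [(f0_0 hy).1]
  · simp [(f0_0 hx).1]

theorem main (h : Heat (fun _ => 1) ro T k) (h' : Heat a0 0 T' k') :
    ∃ᶠ t in atTop, ∃ x ∈ Icc (1 : ℝ) 2, ∃ y ∈ Icc (1 : ℝ) 2, k' t x y < k t x y := by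
  intro no
  obtain ⟨t1, ht⟩ := eventually_atTop.1 no
  obtain ⟨C, hC⟩ := lower h
  have tM : Tendsto (fun j => Mf (g j)) atTop atTop :=
    tendsto_atTop_mono M_ge (tendsto_atTop_add_const_left _ _ tendsto_natCast_atTop_atTop)
  have := ((tendsto_pow_mul_exp_neg_atTop_nhds_zero 12).comp tM).const_mul (64 * C ^ 2 * (‖tl f0‖ ^ 2 + 4 * (∫ x, f0 x) ^ 2))
  rw [mul_zero] at this
  obtain ⟨j, j1, j2⟩ := ((this.eventually (gt_mem_nhds (pow_pos f0_i 2))).and (tM.eventually_ge_atTop t1)).exists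
  have M2 : 2 ≤ Mf (g j) := le_trans (le_add_of_nonneg_right (Nat.cast_nonneg j)) (M_ge j)
  have a := upper h' j (t := 2 * Mf (g j) ^ 2) (by positivity)
  have b := hC (2 * Mf (g j) ^ 2) (by nlinarith)
  have c := cmp h h' (t := 2 * Mf (g j) ^ 2 + 2 * Mf (g j) ^ 2) (by positivity) fun x hx y hy =>
    not_lt.1 fun e => ht _ (by nlinarith) ⟨x, hx, y, hy, e⟩
  rw [h.sq _ (by positivity), h'.sq _ (by positivity)] at c
  simp only [Function.comp] at j1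
  generalize Mf (g j) = M at *
  rw [show 2 * M ^ 2 / (2 * M) = M by field_simp, div_eq_mul_inv, ← exp_neg] at a
  have d := pow_le_pow_left₀ f0_i.le b 2
  have e := mul_le_mul_of_nonneg_left (c.trans a) (by positivity : 0 ≤ (C * (2 * M ^ 2) ^ 3) ^ 2)
  rw [mul_pow] at d
  nlinarith

open Classical in
theorem conv {T : ℝ → L2 → L2} (h1 : ∀ t, 0 ≤ t → IsBoundedLinearMap ℝ (T t)) (h2 : ∀ u, T 0 u = u)
    (h3 : ∀ s t u, 0 ≤ s → 0 ≤ t → T (s + t) u = T s (T t u)) (h4 : ∀ u, ContinuousOn (fun t => T t u) (Ici 0))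
    (h5 : ∀ t u v, 0 ≤ t → inner ℝ (T t u) v = inner ℝ u (T t v))
    (h6 : ∀ u w, HasDerivWithinAt (fun t => T t u) (-w) (Ici 0) 0 ↔ Graph a V u w)
    (h7 : ∀ t, 0 < t → Continuous (Function.uncurry (k t)) ∧ (∀ x y, 0 < k t x y) ∧
      ∀ u : L2, T t u =ᵐ[volume] fun x => ∫ y, k t x y * u y) : ∃ T', Heat a V T' k := by
  let S (t : ℝ) : L2 →L[ℝ] L2 := if h : 0 ≤ t then (h1 t h).toContinuousLinearMap else 0
  have e : ∀ t, 0 ≤ t → ∀ u, S t u = T t u := fun t h u => by simp only [S, dif_pos h]; rfl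
  refine ⟨S, ContinuousLinearMap.ext fun u => (e 0 le_rfl u).trans (h2 u), fun s t s0 t0 => ContinuousLinearMap.ext fun u => ?_,
    fun u => (h4 u).congr fun t ht => e t ht u, fun t t0 => ContinuousLinearMap.isSelfAdjoint_iff_isSymmetric.2 fun u v => ?_,
    fun u w => ?_, fun t t0 => ?_⟩
  · rw [e _ (add_nonneg s0 t0), h3 s t u s0 t0, ← e t t0, ← e s s0]; rfl
  · exact (congrArg (inner ℝ · v) (e t t0 u)).trans ((h5 t u v t0).trans (congrArg (inner ℝ u) (e t t0 v).symm))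
  · exact Iff.trans ⟨fun h => h.congr_of_mem (fun t ht => (e t ht u).symm) self_mem_Ici,
      fun h => h.congr_of_mem (fun t ht => e t ht u) self_mem_Ici⟩ (h6 u w)
  · simpa only [e t t0.le] using h7 t t0

end Pool.Agent.H.MP_ca5fa5_an
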